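import Pool.Agent.H608R4.KM.Stm

/-! Project KM (helper608), piece PW: the pointwise bound. -/

set_option autoImplicit false

namespace Pool.Agent.TH31.KM

open Pool.Agent.H608R4.KM

theorem ind_t {p : Prop} (h : p) : ind p = 1 := by unfold ind; exact if_pos h
theorem ind_f {p : Prop} (h : ¬ p) : ind p = 0 := by unfold ind; exact if_neg h

theorem z4 : ∀ p q : ZMod 4, (q = p ∧ ¬ q = p + 1 ∧ ¬ p = q + 1 ∧ ¬ q = p + 2) ∨
    (¬ q = p ∧ q = p + 1 ∧ ¬ p = q + 1 ∧ ¬ q = p + 2) ∨
    (¬ q = p ∧ ¬ q = p + 1 ∧ p = q + 1 ∧ ¬ q = p + 2) ∨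
    (¬ q = p ∧ ¬ q = p + 1 ∧ ¬ p = q + 1 ∧ q = p + 2) := by decide

theorem t_PW (hCU : S_CU) (h1 : S_P1) (h2 : S_P2) (h3 : S_P3) : S_PW := by
  intro n a x y k c s hG hC i j
  obtain ⟨c1, c2, c3, c4⟩ := hCU n x y k c s hC i j
  have hX : 0 ≤ |s i * s j| * (|s i| + |s j|) := by positivity
  have hY : 0 ≤ |s i * s j| := abs_nonneg _
  have hb : ¬ k j = k i → b a i j = 1 - a i j := by
    intro hk
    have hne : ¬ i = j := by
      intro h
      exact hk (by rw [h])
    unfold b
    rw [ind_f hne]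
    ring
  have ei := hC.cs i
  have ej := hC.cs j
  have pi := hC.c0 i
  have pj := hC.c0 j
  have qi := hC.ch i
  have qj := hC.ch j
  rcases z4 (k i) (k j) with ⟨t1, t2, t3, t4⟩ | ⟨t1, t2, t3, t4⟩ | ⟨t1, t2, t3, t4⟩ | ⟨t1, t2, t3, t4⟩
  · obtain ⟨hu, hv⟩ := c1 t1
    have hp := h1 (c i) (s i) (c j) (s j) ei ej pi pj qi qj
    have hT : T x y s i j = (c i * c j + s i * s j) * (1 - (c i * c j + s i * s j))
        + (s i * c j - c i * s j) * (s i - s j) := by
      unfold T; rw [hu, hv]; ring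
    unfold adj opp sam F adj opp
    rw [ind_t t1, ind_f t2, ind_f t3, ind_f t4, hT]
    have hsq : 0 ≤ (s i - s j) ^ 2 := sq_nonneg _
    rcases hG.zo i j with h0 | h0
    · rw [h0]; nlinarith
    · rw [h0]; nlinarith [hp.2]
  · obtain ⟨hu, hv⟩ := c2 t2
    have hp := (abs_le.mp (h2 (c i) (s i) (c j) (s j) ei ej pi pj qi qj)).2
    have hq := (h3 (c i) (s i) (c j) (s j) ei ej pi pj qi qj).1
    have hT : T x y s i j = (s i * c j - c i * s j) * (1 - (s i * c j - c i * s j))
        - (c i * c j + s i * s j) * (s i - s j) := by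
      unfold T; rw [hu, hv]
    unfold adj opp sam F adj opp psi
    rw [ind_f t1, ind_t t2, ind_f t3, ind_f t4, hb t1, hT]
    rcases hG.zo i j with h0 | h0
    · rw [h0]; linarith
    · rw [h0]; linarith
  · obtain ⟨hu, hv⟩ := c3 t3
    have hp := (abs_le.mp (h2 (c j) (s j) (c i) (s i) ej ei pj pi qj qi)).2
    have hq := (h3 (c j) (s j) (c i) (s i) ej ei pj pi qj qi).1
    have hm : |s j * s i| = |s i * s j| := by rw [mul_comm]
    rw [hm] at hp hq
    have hT : T x y s i j = (s j * c i - c j * s i) * (1 - (s j * c i - c j * s i))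
        - (c j * c i + s j * s i) * (s j - s i) := by
      unfold T; rw [hu, hv]; ring
    unfold adj opp sam F adj opp psi
    rw [ind_f t1, ind_f t2, ind_t t3, ind_f t4, hb t1, hT]
    have e1 : (s j - s i) ^ 2 = (s i - s j) ^ 2 := by ring
    have e2 : |s i * s j| * (|s j| + |s i|) = |s i * s j| * (|s i| + |s j|) := by ring
    rw [e1, e2] at hp
    rcases hG.zo i j with h0 | h0
    · rw [h0]; linarith
    · rw [h0]; linarith
  · obtain ⟨hu, hv⟩ := c4 t4
    have hq := (h3 (c i) (s i) (c j) (s j) ei ej pi pj qi qj).2.1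
    have hT : T x y s i j = -((c i * c j + s i * s j) * (1 + (c i * c j + s i * s j)))
        - (s i * c j - c i * s j) * (s i - s j) := by
      unfold T; rw [hu, hv]; ring
    unfold adj opp sam F adj opp
    rw [ind_f t1, ind_f t2, ind_f t3, ind_t t4, hb t1, hT]
    rcases hG.zo i j with h0 | h0
    · rw [h0]; linarith
    · rw [h0]; linarith

end Pool.Agent.TH31.KM
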